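import Pool.Agent.RMC68.Near

/-!
# Cosets of `R(1,m)`, `m ≥ 4` even, of weight one below the covering radius

For even `m = 2h ≥ 4` the covering radius of `R(1,m)` is `ρ = 2^(m-1) - 2^(m/2-1)`, attained
exactly by the cosets of bent functions. The number of cosets of weight `ρ - 1` is `2^m` times the
number of cosets of weight `ρ` (each of them is at distance one from exactly one bent coset).
The definitions of the code, of the weight of a coset and of `leaderCount` are in
`Pool.Agent.RMC.Defs`.
-/

set_option autoImplicit false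

open Pool.Agent.RMC

namespace Pool.Agent.Results.MP_7db6b7_lc.BelowCoveringRadius

/-- For every even `m = 2h ≥ 4`: `α_{ρ-1} = 2^m α_ρ`, where `ρ = 2^(m-1) - 2^(m/2-1)`. -/
theorem result :
    ∀ h : ℕ, 2 ≤ h →
      leaderCount (2 * h) (2 ^ (2 * h - 1) - 2 ^ (h - 1) - 1) =
        2 ^ (2 * h) * leaderCount (2 * h) (2 ^ (2 * h - 1) - 2 ^ (h - 1)) :=
  fun _ hh => Pool.Agent.RMC68.count_near hh

end Pool.Agent.Results.MP_7db6b7_lc.BelowCoveringRadius
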